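import Pool.Agent.Work.MP_9e6733_nt.Rec
import Pool.Agent.Work.MP_9e6733_nt.Real

/-!
# MP_9e6733_nt: an upper bound for the number of `n ≤ x` with `b(2n)` a sum of two squares

`b n` is the binary partition function: the number of partitions of `n` all of whose parts are
powers of two.  `T x` is the number of `n ≤ x` (with `n = 0` counted) for which `b (2 n)` is a sum
of two squares of integers.  The theorem: for all large real `x`,
`T x ≤ x / 2 - (1 / 80000) * x / log x`.
-/

namespace Pool.Agent.Results.MP_9e6733_nt.HalfUpperBound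

/-- the binary partition function: partitions of `n` into powers of two -/
noncomputable def b (n : ℕ) : ℕ :=
  Nat.card {p : n.Partition // ∀ i ∈ p.parts, ∃ a : ℕ, i = 2 ^ a}

/-- `T x` is the number of natural numbers `n ≤ x` with `b (2 n)` a sum of two squares -/
noncomputable def T (x : ℝ) : ℕ :=
  {n : ℕ | (n : ℝ) ≤ x ∧ ∃ u v : ℤ, (b (2 * n) : ℤ) = u ^ 2 + v ^ 2}.ncard

theorem result : ∃ X : ℝ, ∀ x : ℝ, X ≤ x →
    (T x : ℝ) ≤ x / 2 - (1 / 80000) * (x / Real.log x) := by
  obtain ⟨X, hX⟩ := Pool.Agent.Work.MP_9e6733_nt.final_bound Pool.Agent.Work.MP_9e6733_nt.BB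
    Pool.Agent.Work.MP_9e6733_nt.BB_zero Pool.Agent.Work.MP_9e6733_nt.BB_succ
  refine ⟨X, fun x hx => ?_⟩
  have h := hX x hx
  have hb : ∀ n, b (2 * n) = Pool.Agent.Work.MP_9e6733_nt.BB n := fun n =>
    Pool.Agent.Work.MP_9e6733_nt.card_eq (2 * n)
  simpa only [T, hb, Pool.Agent.Work.MP_9e6733_nt.S2] using h

end Pool.Agent.Results.MP_9e6733_nt.HalfUpperBound
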